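import Pool.Agent.Helper55.RT.Spec5
import Pool.Agent.Helper44.Thin.KMM

/-!
# A representation which is trivial on the geometric Galois group descends
-/

set_option autoImplicit false
set_option linter.all false

open Polynomial IsDedekindDomain
open scoped Classical

namespace Pool.Agent.Helper2.Thin.DES

open Pool.Agent.TH115.GD Pool.Agent.Helper55.RT
open Pool.Agent.Helper55.RG hiding em_inj VanishL VanishExt
open Pool.Agent.Helper55.RL
open Pool.Agent.Helper44.Thin.KMM (exists_r r_cont)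

theorem main : Pool.Agent.Helper55.RT.Q_DES := by
  intro p _ k k' K F _ _ _ _ _ _ _ _ _ _ hT m δ hδ hfin hgeo
  haveI := hT.sep
  haveI := hT.fracK
  haveI : IsSepClosure K (Sep F) := sepKΩ hT.map
  haveI : Algebra.IsSeparable K (Sep F) := IsSepClosure.separable
  haveI : IsGalois K (Sep F) := inferInstance
  haveI : Algebra.IsSeparable k k' := IsSepClosure.separable
  haveI : IsGalois k k' := inferInstance
  obtain ⟨r, hrs, hr⟩ := exists_r hT
  have hrc' : ∀ (τ : Sep F ≃ₐ[K] Sep F) (c : k'), τ (em k' F (Sep F) (C c)) =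
      em k' F (Sep F) (C (r τ c)) := by
    intro τ c
    rw [hr, Polynomial.map_C]
    rfl
  have hrc : Continuous r := r_cont hT hrc'
  have hclosed : IsClosed (δ.ker : Set (Sep F ≃ₐ[K] Sep F)) := by
    have : (δ.ker : Set (Sep F ≃ₐ[K] Sep F)) = δ ⁻¹' {1} := by
      ext τ
      simp [MonoidHom.mem_ker]
    rw [this]
    exact isClosed_singleton.preimage hδ
  have hker : r.ker ≤ δ.ker := by
    intro τ hτ
    rw [MonoidHom.mem_ker] at hτ
    have h1 : ∀ q : k'[X], τ (em k' F (Sep F) q) = em k' F (Sep F) q := by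
      intro q
      rw [hr, hτ]
      congr 1
      exact Polynomial.map_id
    have h2 : ∀ x : F, τ (algebraMap F (Sep F) x) = algebraMap F (Sep F) x := by
      intro x
      obtain ⟨n, d, -, rfl⟩ := IsFractionRing.div_surjective (A := k'[X]) x
      rw [map_div₀, map_div₀]
      have h3 := h1 n
      have h4 := h1 d
      unfold Pool.Agent.Helper55.RG.em at h3 h4
      rw [RingHom.comp_apply] at h3 h4
      rw [h3, h4]
    let σ : Sep F ≃ₐ[F] Sep F := AlgEquiv.ofRingEquiv (f := τ.toRingEquiv) h2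
    have h5 : σ.restrictScalars K = τ := by
      ext x
      rfl
    have h6 := hgeo σ
    rw [h5] at h6
    rw [MonoidHom.mem_ker]
    exact h6
  haveI : T2Space (k' ≃ₐ[k] k') := krullTopology_t2
  set N' : Subgroup (k' ≃ₐ[k] k') := δ.ker.map r with hN'
  have hN'c : IsClosed (N' : Set (k' ≃ₐ[k] k')) := by
    rw [hN', Subgroup.coe_map]
    exact (hclosed.isCompact.image hrc).isClosed
  have hidx0 : N'.index ≠ 0 := by
    rw [hN', Subgroup.index_map_eq _ hrs hker, Subgroup.index_ker]
    haveI : Finite δ.range := by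
      have h7 : ((δ.range : Subgroup (GL (Fin m) ℤ_[p])) : Set (GL (Fin m) ℤ_[p])).Finite := by
        rw [MonoidHom.coe_range]
        exact hfin
      exact h7.to_subtype
    exact Nat.card_pos.ne'
  haveI : N'.FiniteIndex := ⟨hidx0⟩
  have hN'o : IsOpen (N' : Set (k' ≃ₐ[k] k')) := Subgroup.isOpen_of_isClosed_of_finiteIndex _ hN'c
  haveI hnorm : N'.Normal := Subgroup.Normal.map (inferInstance : δ.ker.Normal) r hrs
  have hfix : (IntermediateField.fixedField N').fixingSubgroup = N' :=
    InfiniteGalois.fixingSubgroup_fixedField (⟨N', hN'c⟩ : ClosedSubgroup (k' ≃ₐ[k] k'))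
  choose s hs using hrs
  have hker' : ∀ τ τ' : Sep F ≃ₐ[K] Sep F, r τ = r τ' → δ τ = δ τ' := by
    intro τ τ' h
    have h1 : τ⁻¹ * τ' ∈ δ.ker := hker (by
      rw [MonoidHom.mem_ker, map_mul, map_inv, h, inv_mul_cancel])
    rw [MonoidHom.mem_ker, map_mul, map_inv, inv_mul_eq_one] at h1
    exact h1
  let δ' : (k' ≃ₐ[k] k') →* GL (Fin m) ℤ_[p] := MonoidHom.mk' (fun ν => δ (s ν)) (by
    intro a b
    rw [← map_mul]
    apply hker'
    rw [hs, map_mul, hs, hs])
  have hδ' : ∀ τ, δ' (r τ) = δ τ := fun τ => hker' _ _ (hs _)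
  have hnu : ∀ (τ : Sep F ≃ₐ[K] Sep F) (ν : k' ≃ₐ[k] k'),
      (∀ e : k', τ (em k' F (Sep F) (C e)) = em k' F (Sep F) (C (ν e))) → r τ = ν := by
    intro τ ν h
    ext c
    apply em_inj (k' := k') (F := F)
    show em k' F (Sep F) (C (r τ c)) = em k' F (Sep F) (C (ν c))
    rw [← hrc', h]
  refine ⟨δ', IntermediateField.fixedField N', ?_, ?_, ?_, ?_, ?_, ?_⟩
  · rw [← InfiniteGalois.isOpen_iff_finite, hfix]
    exact hN'o
  · have h8 : IsGalois k (IntermediateField.fixedField N') := by
      rw [← InfiniteGalois.normal_iff_isGalois, hfix]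
      exact hnorm
    exact h8.to_normal
  · intro ν hν
    have h1 : ν ∈ N' := by
      rw [← hfix, IntermediateField.mem_fixingSubgroup_iff]
      exact hν
    rw [hN', Subgroup.mem_map] at h1
    obtain ⟨σ, hσ, rfl⟩ := h1
    rw [hδ']
    exact hσ
  · intro ν
    exact ⟨s ν, fun e => by rw [hrc', hs]⟩
  · intro τ
    exact ⟨r τ, hrc' τ⟩
  · intro τ ν h
    rw [← hδ' τ, hnu τ ν h]

end Pool.Agent.Helper2.Thin.DES
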